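import Pool.Agent.Lib.MP_19adc1_gt.Circle

/-!
# Precompact neighbourhood bases on the integers

We work with a decreasing sequence `U` of subsets of `ℤ` which behaves like a neighbourhood base
of `0` of a precompact group topology.
-/

namespace Pool.Agent.Lib.MP_19adc1_gt

open Topology

/-- A sequence of sets that behaves like a countable neighbourhood base at `0` of a precompact
group topology on `ℤ`. -/
structure PBase (U : ℕ → Set ℤ) : Prop where
  zero_mem : ∀ n, (0 : ℤ) ∈ U n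
  add_mem : ∀ n, ∀ k ∈ U (n + 1), ∀ l ∈ U (n + 1), k + l ∈ U n
  anti : Antitone U
  prec : ∀ n, ∃ F : Finset ℤ, ∀ k : ℤ, ∃ f ∈ F, ∃ u ∈ U n, f + u = k

/-- The elements of the circle which give characters. -/
def dualSet (U : ℕ → Set ℤ) : Set Circ := {x | ∀ ε : ℝ, 0 < ε → ∃ n, ∀ k ∈ U n, ‖k • x‖ ≤ ε}

/-- The polar of a set of integers in the circle. -/
def polar (A : Set ℤ) : Set Circ := {x | ∀ k ∈ A, ‖k • x‖ ≤ 1 / 4}

variable {U : ℕ → Set ℤ}

theorem norm_zsmul_le' (k : ℤ) (x : Circ) : ‖k • x‖ ≤ |(k : ℝ)| * ‖x‖ := by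
  have := norm_zsmul_le k x
  rwa [Int.norm_eq_abs] at this

theorem dualSet_zero_mem : (0 : Circ) ∈ dualSet U := by
  intro ε hε
  exact ⟨0, fun k _ => by simpa using hε.le⟩

theorem dualSet_add_mem (hU : PBase U) {x y : Circ} (hx : x ∈ dualSet U) (hy : y ∈ dualSet U) :
    x + y ∈ dualSet U := by
  intro ε hε
  obtain ⟨n, hn⟩ := hx (ε / 2) (by positivity)
  obtain ⟨m, hm⟩ := hy (ε / 2) (by positivity)
  refine ⟨max n m, fun k hk => ?_⟩
  have h1 := hn k (hU.anti (le_max_left n m) hk)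
  have h2 := hm k (hU.anti (le_max_right n m) hk)
  calc ‖k • (x + y)‖ = ‖k • x + k • y‖ := by rw [smul_add]
    _ ≤ ‖k • x‖ + ‖k • y‖ := norm_add_le _ _
    _ ≤ ε := by linarith

theorem dualSet_zsmul_mem {x : Circ} (hx : x ∈ dualSet U) (c : ℤ) :
    c • x ∈ dualSet U := by
  intro ε hε
  obtain ⟨n, hn⟩ := hx (ε / (|(c : ℝ)| + 1)) (by positivity)
  refine ⟨n, fun k hk => ?_⟩
  have h1 := hn k hk
  have h2 : ‖k • c • x‖ ≤ |(c : ℝ)| * ‖k • x‖ := by
    rw [smul_comm]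
    exact norm_zsmul_le' c (k • x)
  have h3 : |(c : ℝ)| * ‖k • x‖ ≤ |(c : ℝ)| * (ε / (|(c : ℝ)| + 1)) :=
    mul_le_mul_of_nonneg_left h1 (abs_nonneg _)
  have h4 : |(c : ℝ)| * (ε / (|(c : ℝ)| + 1)) ≤ ε := by
    rw [mul_div_assoc', div_le_iff₀ (by positivity)]
    nlinarith [abs_nonneg (c : ℝ)]
  linarith

theorem dualSet_neg_mem {x : Circ} (hx : x ∈ dualSet U) : -x ∈ dualSet U := by
  have := dualSet_zsmul_mem hx (-1)
  simpa using this

theorem dualSet_sub_mem (hU : PBase U) {x y : Circ} (hx : x ∈ dualSet U) (hy : y ∈ dualSet U) :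
    x - y ∈ dualSet U := by
  rw [sub_eq_add_neg]
  exact dualSet_add_mem hU hx (dualSet_neg_mem hy)

theorem exists_base_subset (hU : PBase U) (D : Finset Circ) (hD : ∀ d ∈ D, d ∈ dualSet U) {ε : ℝ}
    (hε : 0 < ε) : ∃ n, ∀ k ∈ U n, ∀ d ∈ D, ‖k • d‖ ≤ ε := by
  classical
  induction D using Finset.induction_on with
  | empty => exact ⟨0, by simp⟩
  | insert a s ha ih =>
    obtain ⟨n, hn⟩ := ih (fun d hd => hD d (Finset.mem_insert_of_mem hd))
    obtain ⟨m, hm⟩ := hD a (Finset.mem_insert_self a s) ε hε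
    refine ⟨max n m, fun k hk d hd => ?_⟩
    rcases Finset.mem_insert.1 hd with rfl | hd
    · exact hm k (hU.anti (le_max_right n m) hk)
    · exact hn k (hU.anti (le_max_left n m) hk) d hd

theorem nsmul_mem_base (hU : PBase U) (j : ℕ) : ∀ n k, k ∈ U (n + j) → (j : ℤ) * k ∈ U n := by
  induction j with
  | zero => intro n k _; simpa using hU.zero_mem n
  | succ j ih =>
    intro n k hk
    have h1 : k ∈ U ((n + 1) + j) := by
      have : n + (j + 1) = (n + 1) + j := by ring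
      rwa [this] at hk
    have h2 := ih (n + 1) k h1
    have h3 : k ∈ U (n + 1) := hU.anti (by omega) h1
    have := hU.add_mem n _ h2 _ h3
    have h4 : ((j + 1 : ℕ) : ℤ) * k = (j : ℤ) * k + k := by push_cast; ring
    rw [h4]; exact this

theorem polar_norm_le (hU : PBase U) {A : Set ℤ} {n : ℕ} (hA : U n ⊆ A) (L : ℕ) (hL : 1 ≤ L)
    {k : ℤ} (hk : k ∈ U (n + L)) {x : Circ} (hx : x ∈ polar A) : (L : ℝ) * ‖k • x‖ ≤ 1 / 4 := by
  apply mul_norm_le_of_multiples (by norm_num) L _ hL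
  intro j _ hjL
  have h1 : (j : ℤ) * k ∈ U n := nsmul_mem_base hU j n k (hU.anti (by omega) hk)
  have h2 := hx _ (hA h1)
  rwa [mul_smul, natCast_zsmul] at h2

theorem polar_subset_dualSet (hU : PBase U) {A : Set ℤ} {n : ℕ} (hA : U n ⊆ A) :
    polar A ⊆ dualSet U := by
  intro x hx ε hε
  obtain ⟨L, hL⟩ := exists_nat_gt (1 / (4 * ε))
  have hL1 : 1 ≤ L := by
    rcases Nat.eq_zero_or_pos L with h | h
    · subst h
      have : 0 < 1 / (4 * ε) := by positivity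
      rw [Nat.cast_zero] at hL; linarith
    · exact h
  refine ⟨n + L, fun k hk => ?_⟩
  have h1 := polar_norm_le hU hA L hL1 hk hx
  have h2 : 1 < (L : ℝ) * (4 * ε) := by
    rwa [div_lt_iff₀ (by positivity)] at hL
  have hLpos : (0 : ℝ) < L := by exact_mod_cast hL1
  by_contra hcon
  push Not at hcon
  nlinarith

/-- An infinite set in the circle contains two distinct points at small distance. -/
theorem exists_close_of_infinite {S : Set Circ} (hS : S.Infinite) {r : ℝ} (hr : 0 < r) :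
    ∃ x ∈ S, ∃ y ∈ S, x ≠ y ∧ ‖x - y‖ < r := by
  have hc : TotallyBounded (Set.univ : Set Circ) := isCompact_univ.totallyBounded
  obtain ⟨t, ht, hcov⟩ := Metric.totallyBounded_iff.1 hc (r / 2) (by positivity)
  have hex : ∀ x : Circ, ∃ y ∈ t, dist x y < r / 2 := by
    intro x
    have := hcov (Set.mem_univ x)
    simpa using this
  choose f hft hfd using hex
  obtain ⟨x, hx, y, hy, hne, heq⟩ := hS.exists_ne_map_eq_of_mapsTo (fun x _ => hft x) ht
  refine ⟨x, hx, y, hy, hne, ?_⟩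
  rw [← dist_eq_norm]
  calc dist x y ≤ dist x (f x) + dist y (f x) := dist_triangle_right _ _ _
    _ = dist x (f x) + dist y (f y) := by rw [heq]
    _ < r := by linarith [hfd x, hfd y]

theorem polar_finite (hU : PBase U) {A : Set ℤ} {n : ℕ} (hA : U n ⊆ A) : (polar A).Finite := by
  by_contra hinf
  obtain ⟨F, hF⟩ := hU.prec (n + 8)
  set R : ℝ := ∑ f ∈ F, |(f : ℝ)| with hR
  have hR0 : 0 ≤ R := Finset.sum_nonneg (fun _ _ => abs_nonneg _)
  obtain ⟨x, hx, y, hy, hne, hxy⟩ := exists_close_of_infinite hinf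
    (r := 1 / (16 * (R + 1))) (by positivity)
  have hne' : x - y ≠ 0 := sub_ne_zero.2 hne
  obtain ⟨k, hk⟩ := exists_int_norm_gt hne'
  obtain ⟨f, hf, u, hu, rfl⟩ := hF k
  have h1 := polar_norm_le hU hA 8 (by norm_num) hu hx
  have h2 := polar_norm_le hU hA 8 (by norm_num) hu hy
  have h3 : ‖f • (x - y)‖ ≤ |(f : ℝ)| * ‖x - y‖ := norm_zsmul_le' _ _
  have h4 : |(f : ℝ)| ≤ R := Finset.single_le_sum (f := fun f : ℤ => |(f : ℝ)|)
    (fun _ _ => abs_nonneg _) hf
  have h5 : |(f : ℝ)| * ‖x - y‖ ≤ 1 / 16 := by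
    have h6 : |(f : ℝ)| * ‖x - y‖ ≤ (R + 1) * (1 / (16 * (R + 1))) := by
      apply mul_le_mul (by linarith) hxy.le (norm_nonneg _) (by linarith)
    have h7 : (R + 1) * (1 / (16 * (R + 1))) = 1 / 16 := by
      field_simp
    linarith
  have h8 : (f + u) • (x - y) = f • (x - y) + (u • x - u • y) := by
    rw [add_smul, smul_sub u]
  have h9 : ‖(f + u) • (x - y)‖ ≤ ‖f • (x - y)‖ + (‖u • x‖ + ‖u • y‖) := by
    rw [h8]
    exact (norm_add_le _ _).trans (add_le_add le_rfl (norm_sub_le _ _))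
  norm_num at h1 h2
  linarith

theorem exists_bound (hU : PBase U) {A : Set ℤ} {n : ℕ} (hA : U n ⊆ A) {δ : ℝ} (hδ : 0 < δ) :
    ∃ M : ℕ, ∀ x : Circ, (∀ k ∈ A, |k| ≤ (M : ℤ) → ‖k • x‖ ≤ 1 / 4) →
      ∃ h ∈ polar A, ‖x - h‖ ≤ δ := by
  set C : ℕ → Set Circ := fun M =>
    {x | (∀ k ∈ A, |k| ≤ (M : ℤ) → ‖k • x‖ ≤ 1 / 4) ∧ ∀ h ∈ polar A, δ ≤ ‖x - h‖} with hC
  have hclosed : ∀ M, IsClosed (C M) := by
    intro M
    have : C M = (⋂ (k : ℤ) (_ : k ∈ A) (_ : |k| ≤ (M : ℤ)), {x : Circ | ‖k • x‖ ≤ 1 / 4}) ∩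
        ⋂ (h : Circ) (_ : h ∈ polar A), {x : Circ | δ ≤ ‖x - h‖} := by
      ext x; simp [hC]
    rw [this]
    apply IsClosed.inter
    · refine isClosed_iInter fun k => isClosed_iInter fun _ => isClosed_iInter fun _ => ?_
      exact isClosed_le (by fun_prop) continuous_const
    · refine isClosed_iInter fun h => isClosed_iInter fun _ => ?_
      exact isClosed_le continuous_const (by fun_prop)
  have hdir : Directed (· ⊇ ·) C := by
    apply directed_of_isDirected_le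
    intro a b hab x hx
    refine ⟨fun k hk hka => hx.1 k hk (hka.trans (by exact_mod_cast hab)), hx.2⟩
  have hempty : (Set.univ : Set Circ) ∩ ⋂ M, C M = ∅ := by
    rw [Set.univ_inter]
    ext x
    simp only [Set.mem_iInter, Set.mem_empty_iff_false, iff_false, not_forall]
    by_contra hcon
    push Not at hcon
    have hxp : x ∈ polar A := by
      intro k hk
      exact (hcon k.natAbs).1 k hk (by simp)
    have := (hcon 0).2 x hxp
    simp at this
    linarith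
  obtain ⟨M, hM⟩ := isCompact_univ.elim_directed_family_closed C hclosed hempty hdir
  refine ⟨M, fun x hx => ?_⟩
  by_contra hcon
  push Not at hcon
  have : x ∈ (Set.univ : Set Circ) ∩ C M := ⟨trivial, hx, fun h hh => (hcon h hh).le⟩
  rw [hM] at this
  exact this

theorem exists_syndetic (hU : PBase U) {A : Set ℤ} {n : ℕ} (hA : U n ⊆ A) :
    ∃ N : ℕ, 1 ≤ N ∧ ∀ s : ℝ, ∃ k ∈ A, |(k : ℝ) - s| ≤ N := by
  obtain ⟨F, hF⟩ := hU.prec n
  obtain ⟨N, hN⟩ := exists_nat_ge (∑ f ∈ F, |(f : ℝ)| + 1)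
  have hR0 : 0 ≤ ∑ f ∈ F, |(f : ℝ)| := Finset.sum_nonneg (fun _ _ => abs_nonneg _)
  refine ⟨N, ?_, fun s => ?_⟩
  · have : (1 : ℝ) ≤ N := by linarith
    exact_mod_cast this
  · obtain ⟨f, hf, u, hu, huk⟩ := hF ⌊s⌋
    refine ⟨u, hA hu, ?_⟩
    have h4 : |(f : ℝ)| ≤ ∑ f ∈ F, |(f : ℝ)| := Finset.single_le_sum (f := fun f : ℤ => |(f : ℝ)|)
      (fun _ _ => abs_nonneg _) hf
    have h5 : (u : ℝ) = ⌊s⌋ - f := by
      rw [← huk]; push_cast; ring
    have h6 : |(⌊s⌋ : ℝ) - s| ≤ 1 := by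
      rw [abs_le]; constructor <;> linarith [Int.floor_le s, Int.lt_floor_add_one s]
    calc |(u : ℝ) - s| = |((⌊s⌋ : ℝ) - s) - f| := by rw [h5]; ring_nf
      _ ≤ |(⌊s⌋ : ℝ) - s| + |(f : ℝ)| := abs_sub _ _
      _ ≤ N := by linarith

theorem exists_small (hU : PBase U) (hH : (dualSet U).Infinite) {β : ℝ} (hβ : 0 < β) :
    ∃ b : ℝ, 0 < b ∧ b < β ∧ (b : Circ) ∈ dualSet U := by
  obtain ⟨x, hx, y, hy, hne, hxy⟩ := exists_close_of_infinite hH hβ
  obtain ⟨r, hr, h1, -⟩ := exists_rep (x - y)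
  have hne' : x - y ≠ 0 := sub_ne_zero.2 hne
  refine ⟨|r|, ?_, by rw [h1]; exact hxy, ?_⟩
  · rw [h1]; exact norm_pos_iff.2 hne'
  · have hmem : x - y ∈ dualSet U := dualSet_sub_mem hU hx hy
    rcases abs_choice r with h | h
    · rw [h, hr]; exact hmem
    · rw [h]
      have : ((-r : ℝ) : Circ) = -(r : Circ) := AddCircle.coe_neg (p := (1 : ℝ)) 
      rw [this, hr]
      exact dualSet_neg_mem hmem

end Pool.Agent.Lib.MP_19adc1_gt
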