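import Pool.Agent.Lib.MP_19adc1_gt.Defs

/-!
# Elementary facts on the norm of the circle group
-/

namespace Pool.Agent.Lib.MP_19adc1_gt

open Topology

theorem norm_coe_le_abs (r : ℝ) : ‖(r : Circ)‖ ≤ |r| := by
  rw [UnitAddCircle.norm_eq]
  simpa using round_le r 0

theorem norm_coe_of_abs_le {r : ℝ} (h : |r| ≤ 1 / 2) : ‖(r : Circ)‖ = |r| := by
  have := (AddCircle.norm_coe_eq_abs_iff (p := (1 : ℝ)) (x := r) one_ne_zero).2 (by simpa using h)
  exact this

theorem coe_int (n : ℤ) : ((n : ℝ) : Circ) = 0 := by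
  have := AddCircle.coe_eq_zero_iff (p := (1 : ℝ)) (x := (n : ℝ))
  exact this.2 ⟨n, by simp⟩

theorem exists_rep (y : Circ) : ∃ r : ℝ, (r : Circ) = y ∧ |r| = ‖y‖ ∧ |r| ≤ 1 / 2 := by
  induction y using QuotientAddGroup.induction_on with
  | H z =>
    refine ⟨z - round z, ?_, ?_, abs_sub_round z⟩
    · have : (((z - round z : ℝ)) : Circ) = (z : Circ) - ((round z : ℝ) : Circ) := by
        exact AddCircle.coe_sub (p := (1 : ℝ)) z (round z : ℝ)
      rw [this, coe_int, sub_zero]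
    · exact (UnitAddCircle.norm_eq (x := z)).symm

theorem norm_le_half (y : Circ) : ‖y‖ ≤ 1 / 2 := by
  obtain ⟨r, -, h1, h2⟩ := exists_rep y
  rw [← h1]; exact h2

/-- If `|s|` is at least `c` away from all integers... basic form: a real with `c < |s| < 1 - c`
has norm larger than `c` in the circle. -/
theorem norm_gt {s c : ℝ} (h1 : c < |s|) (h2 : |s| < 1 - c) : c < ‖(s : Circ)‖ := by
  rw [UnitAddCircle.norm_eq]
  set z := round s with hz
  rcases eq_or_ne z 0 with h0 | h0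
  · simpa [h0] using h1
  · have h3 : (1 : ℝ) ≤ |(z : ℝ)| := by
      have : (1 : ℤ) ≤ |z| := Int.one_le_abs h0
      exact_mod_cast this
    have h4 : |(z : ℝ)| ≤ |s - z| + |s| := by
      calc |(z : ℝ)| = |s - (s - z)| := by ring_nf
        _ ≤ |s| + |s - z| := abs_sub _ _
        _ = _ := add_comm _ _
    linarith

theorem nsmul_coe (n : ℕ) (r : ℝ) : n • (r : Circ) = ((n * r : ℝ) : Circ) := by
  rw [← AddCircle.coe_nsmul, nsmul_eq_mul]

theorem zsmul_coe (n : ℤ) (r : ℝ) : n • (r : Circ) = ((n * r : ℝ) : Circ) := by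
  rw [← AddCircle.coe_zsmul, zsmul_eq_mul]

/-- If all multiples `j • y`, `1 ≤ j ≤ L`, have norm at most `c < 1/3`, then `L * ‖y‖ ≤ c`. -/
theorem mul_norm_le_of_multiples {y : Circ} {c : ℝ} (hc : c < 1 / 3) (L : ℕ)
    (h : ∀ j : ℕ, 1 ≤ j → j ≤ L → ‖j • y‖ ≤ c) (hL : 1 ≤ L) : (L : ℝ) * ‖y‖ ≤ c := by
  obtain ⟨r, hr, h1, h2⟩ := exists_rep y
  have key : ∀ j : ℕ, 1 ≤ j → j ≤ L → (j : ℝ) * |r| ≤ c := by
    intro j hj
    induction j, hj using Nat.le_induction with
    | base =>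
      intro hL'
      have := h 1 le_rfl hL'
      rw [one_smul] at this
      rw [h1]; simpa using this
    | succ j hj ih =>
      intro hjL
      have ih' := ih (by omega)
      have h3 := h (j + 1) (by omega) hjL
      rw [← hr, nsmul_coe] at h3
      by_contra hcon
      push Not at hcon
      have habs : |(((j + 1 : ℕ) : ℝ)) * r| = ((j + 1 : ℕ) : ℝ) * |r| := by
        rw [abs_mul, Nat.abs_cast]
      have hr_le : |r| ≤ c := by
        have : (1 : ℝ) * |r| ≤ (j : ℝ) * |r| := by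
          apply mul_le_mul_of_nonneg_right _ (abs_nonneg r)
          exact_mod_cast hj
        linarith
      have h4 : |(((j + 1 : ℕ) : ℝ)) * r| < 1 - c := by
        rw [habs]; push_cast; nlinarith
      have := norm_gt (s := (((j + 1 : ℕ) : ℝ)) * r) (c := c) (by rw [habs]; exact hcon) h4
      linarith
  have := key L hL le_rfl
  rwa [h1] at this

theorem mem_TPlus_iff (y : Circ) : y ∈ TPlus ↔ ‖y‖ ≤ 1 / 4 := by
  constructor
  · rintro ⟨x, hx, rfl⟩
    exact (norm_coe_le_abs x).trans (abs_le.2 ⟨by linarith [hx.1], hx.2⟩)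
  · intro h
    obtain ⟨r, hr, h1, -⟩ := exists_rep y
    refine ⟨r, ?_, hr⟩
    rw [← h1] at h
    exact ⟨by linarith [(abs_le.1 h).1], (abs_le.1 h).2⟩

/-- A nonzero element of the circle has a multiple of norm more than `1/4`. -/
theorem exists_int_norm_gt {y : Circ} (hy : y ≠ 0) : ∃ k : ℤ, 1 / 4 < ‖k • y‖ := by
  by_contra hcon
  push Not at hcon
  have hpos : 0 < ‖y‖ := norm_pos_iff.2 hy
  obtain ⟨L, hL⟩ := exists_nat_gt (1 / ‖y‖)
  have hL1 : 1 ≤ L := by
    rcases Nat.eq_zero_or_pos L with h | h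
    · subst h
      have : 0 < 1 / ‖y‖ := by positivity
      simp at hL; linarith
    · exact h
  have := mul_norm_le_of_multiples (y := y) (c := 1 / 4) (by norm_num) L
    (fun j _ _ => by simpa using hcon (j : ℤ)) hL1
  have h2 : 1 < (L : ℝ) * ‖y‖ := by
    rwa [div_lt_iff₀ hpos] at hL
  linarith

end Pool.Agent.Lib.MP_19adc1_gt
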