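import Mathlib

/-!
# Definitions for the Mackey problem on the integers

All topologies are on the additive group of the integers.
-/

namespace Pool.Agent.Lib.MP_19adc1_gt

/-- The circle group, the reals modulo the integers. -/
abbrev Circ : Type := AddCircle (1 : ℝ)

/-- The arc `[-1/4, 1/4] + ℤ` of the circle group. -/
def TPlus : Set Circ := (fun x : ℝ => (x : Circ)) '' Set.Icc (-(1 / 4)) (1 / 4)

/-- `τ` is a group topology on the additive group of the integers. -/
def IsGroupTopology (τ : TopologicalSpace ℤ) : Prop := @IsTopologicalAddGroup ℤ τ _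

/-- The characters of `(ℤ, τ)`: the `τ`-continuous homomorphisms into the circle group. -/
def characters (τ : TopologicalSpace ℤ) : Set (ℤ →+ Circ) :=
  {χ | @Continuous ℤ Circ τ _ χ}

/-- `τ` is precompact: every neighbourhood `U` of `0` satisfies `F + U = ℤ` for some
finite set `F`. -/
def IsPrecompact (τ : TopologicalSpace ℤ) : Prop :=
  ∀ U ∈ @nhds ℤ τ 0, ∃ F : Finset ℤ, ∀ n : ℤ, ∃ f ∈ F, ∃ u ∈ U, f + u = n

/-- `A` is quasi-convex for `τ`: every point outside `A` is separated from `A` by a character,
by means of the arc `TPlus`. -/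
def IsQuasiConvex (τ : TopologicalSpace ℤ) (A : Set ℤ) : Prop :=
  ∀ x : ℤ, x ∉ A → ∃ χ ∈ characters τ, (∀ a ∈ A, χ a ∈ TPlus) ∧ χ x ∉ TPlus

/-- `τ` is locally quasi-convex: `0` has a neighbourhood base of quasi-convex sets. -/
def IsLocallyQuasiConvex (τ : TopologicalSpace ℤ) : Prop :=
  ∀ U ∈ @nhds ℤ τ 0, ∃ A ∈ @nhds ℤ τ 0, A ⊆ U ∧ IsQuasiConvex τ A

/-- `τ` and `σ` are compatible: they have the same characters. -/
def Compatible (τ σ : TopologicalSpace ℤ) : Prop := characters τ = characters σ

/-- A group topology `τ` is Mackey if it is locally quasi-convex and finer than every locally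
quasi-convex group topology which is compatible with it. (In Mathlib `τ ≤ σ` says that `τ` is
finer than `σ`.) -/
def IsMackey (τ : TopologicalSpace ℤ) : Prop :=
  IsGroupTopology τ ∧ IsLocallyQuasiConvex τ ∧
    ∀ σ : TopologicalSpace ℤ, IsGroupTopology σ → IsLocallyQuasiConvex σ → Compatible τ σ → τ ≤ σ

end Pool.Agent.Lib.MP_19adc1_gt
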