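import Pool.Agent.Lib.MP_19adc1_gt.Main

/-!
# The dual does not grow
-/

namespace Pool.Agent.Lib.MP_19adc1_gt

open Topology

variable {U : ℕ → Set ℤ} {s : ℕ → St}

theorem sum_mem_base (hU : PBase U) (T : ℕ) : ∀ (n : ℕ) (k : ℕ → ℤ),
    (∀ t < T, k t ∈ U (n + 1 + t)) → ∑ t ∈ Finset.range T, k t ∈ U n := by
  induction T with
  | zero => intro n k _; simpa using hU.zero_mem n
  | succ T ih =>
    intro n k hk
    rw [Finset.sum_range_succ']
    apply hU.add_mem n
    · apply ih (n + 1) (fun t => k (t + 1))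
      intro t ht
      have := hk (t + 1) (by omega)
      have h2 : n + 1 + (t + 1) = n + 1 + 1 + t := by ring
      rwa [h2] at this
    · exact hk 0 (by omega)

theorem sum_eta_le (i : ℕ) (J : Finset ℕ) : ∑ t ∈ J, eta (i + t) ≤ 2 * eta i := by
  obtain ⟨T, hT⟩ := J.exists_nat_subset_range
  have h1 : ∑ t ∈ J, eta (i + t) ≤ ∑ t ∈ Finset.range T, eta (i + t) :=
    Finset.sum_le_sum_of_subset_of_nonneg hT (fun t _ _ => (eta_pos _).le)
  have h2 : ∀ T : ℕ, ∑ t ∈ Finset.range T, eta (i + t) = 2 * eta i - 2 * eta (i + T) := by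
    intro T
    induction T with
    | zero => simp
    | succ T ih =>
      rw [Finset.sum_range_succ, ih, ← add_assoc, eta_succ]
      ring
  rw [h2 T] at h1
  have := eta_pos (i + T)
  linarith

theorem Chain.mem_dual (h : Chain U s) {n m : ℕ} {x : Circ}
    (hx : ∀ k ∈ U n, (∀ j, ‖k • ((s j).b : Circ)‖ ≤ 1 / ((m : ℝ) + 1)) → ‖k • x‖ ≤ 1 / 4) :
    x ∈ dualSet U := by
  classical
  set p : ℕ := max n m with hp
  have hnp : n ≤ p := le_max_left _ _
  have hmp : m ≤ p := le_max_right _ _
  have hmp' : (m : ℝ) ≤ p := by exact_mod_cast hmp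
  set i0 : ℕ := p + 1 with hi0
  have hi0cast : (i0 : ℝ) = p + 1 := by rw [hi0]; push_cast; ring
  -- the starting point
  obtain ⟨d0, hd0, hxd0⟩ := (h.good i0).base x (by
    intro k hkU hkD hkb
    apply hx k (h.base.anti (by omega) hkU)
    intro j
    have hle : 1 / ((i0 : ℝ) + 1) ≤ 1 / ((m : ℝ) + 1) := by
      apply one_div_le_one_div_of_le (by positivity)
      rw [hi0cast]; linarith
    rcases lt_or_ge j i0 with hj | hj
    · exact (hkD _ (h.b_mem hj)).trans hle
    · rw [zsmul_coe]
      refine (norm_coe_le_abs _).trans ?_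
      rw [abs_mul, abs_of_pos (h.good j).b_pos]
      refine le_trans ?_ (hkb.trans hle)
      exact mul_le_mul_of_nonneg_left (h.b_le hj) (abs_nonneg _))
  obtain ⟨r0, hr0, hr0n, -⟩ := exists_rep (x - d0)
  -- the sequence of remainders
  obtain ⟨xs, hxs0, hxs⟩ : ∃ xs : ℕ → ℝ, xs 0 = r0 ∧
      ∀ t, xs (t + 1) = xs t - round (xs t / (s (i0 + t)).b) * (s (i0 + t)).b :=
    ⟨fun t => Nat.rec r0 (fun t y => y - round (y / (s (i0 + t)).b) * (s (i0 + t)).b) t,
      rfl, fun t => rfl⟩
  have inv : ∀ t, x - (xs t : Circ) ∈ (s (i0 + t)).Dp ∧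
      |xs t| ≤ eta (i0 + t) / (s (i0 + t)).N := by
    intro t
    induction t with
    | zero =>
      refine ⟨?_, ?_⟩
      · rw [hxs0, hr0, sub_sub_cancel]; exact hd0
      · rw [hxs0, hr0n]; exact hxd0
    | succ t ih =>
      obtain ⟨ih1, ih2⟩ := ih
      obtain ⟨hc, hb⟩ := h.step (n := n) (m := m) (i := i0 + t) (by omega) (by omega) hx ih1
        (x' := xs t) (by abel) ih2
      rw [← hxs t] at hb
      constructor
      · have h1 := h.add_mem (i0 + t) ih1 (c := round (xs t / (s (i0 + t)).b)) (by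
          refine hc.trans ?_
          push_cast; omega)
        have h2 : x - (xs (t + 1) : Circ)
            = x - (xs t : Circ) + round (xs t / (s (i0 + t)).b) • ((s (i0 + t)).b : Circ) := by
          rw [hxs t, zsmul_coe, AddCircle.coe_sub]
          abel
        rw [h2]
        exact h1
      · refine hb.trans ?_
        have hg := h.good (i0 + t + 1)
        have hN : (0 : ℝ) < (s (i0 + t + 1)).N := by exact_mod_cast hg.one_le_N
        have hbp := hg.b_pos
        show _ ≤ eta (i0 + t + 1) / (s (i0 + t + 1)).N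
        rw [le_div_iff₀ hN]
        refine le_trans ?_ hg.small
        have h3 : (m : ℝ) + 1 ≤ ((i0 + t + 1 : ℕ) : ℝ) + 1 := by
          push_cast; rw [hi0cast]; linarith [(Nat.cast_nonneg t : (0 : ℝ) ≤ t)]
        have h4 : ((m : ℝ) + 1) * (s (i0 + t + 1)).b * (s (i0 + t + 1)).N
            = ((m : ℝ) + 1) * ((s (i0 + t + 1)).N * (s (i0 + t + 1)).b) := by ring
        have h5 : (((i0 + t + 1 : ℕ) : ℝ) + 1) * (s (i0 + t + 1)).N * (s (i0 + t + 1)).b
            = (((i0 + t + 1 : ℕ) : ℝ) + 1) * ((s (i0 + t + 1)).N * (s (i0 + t + 1)).b) := by ring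
        rw [h4, h5]
        exact mul_le_mul_of_nonneg_right h3 (by positivity)
  set c : ℕ → ℤ := fun t => round (xs t / (s (i0 + t)).b) with hc
  have mpos : (0 : ℝ) < (m : ℝ) + 1 := by positivity
  set v : ℝ := 1 / (4 * ((m : ℝ) + 1)) with hv
  have hvpos : 0 < v := by positivity
  have hv4 : 4 * v = 1 / ((m : ℝ) + 1) := by
    rw [hv]; field_simp
  have hv_le : v ≤ 1 / 4 := by
    rw [hv, div_le_div_iff₀ (by positivity) (by norm_num)]
    linarith [(Nat.cast_nonneg m : (0 : ℝ) ≤ m)]
  -- test integers for the nonzero coefficients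
  have htest : ∀ t, ∃ k : ℤ, k ∈ U (i0 + t) ∧ (c t ≠ 0 →
      ((∀ j, ‖k • ((s j).b : Circ)‖ ≤ eta (i0 + t) + if i0 + t = j then v else 0) ∧
        ‖k • x - (v : Circ)‖ ≤ 3 * eta (i0 + t))) := by
    intro t
    by_cases hct : c t = 0
    · exact ⟨0, h.base.zero_mem _, fun hne => absurd hct hne⟩
    · obtain ⟨ih1, ih2⟩ := inv t
      obtain ⟨k, hkU, hk1, hk2, hk3, hk4⟩ := h.test (i0 + t) ih1 (x := x) (x' := xs t) (by abel)
        ih2 (v / (c t : ℝ))
      obtain ⟨-, hb⟩ := h.step (n := n) (m := m) (i := i0 + t) (by omega) (by omega) hx ih1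
        (x' := xs t) (by abel) ih2
      have hbpos := (h.good (i0 + t)).b_pos
      have hbpos1 := (h.good (i0 + t + 1)).b_pos
      have hcR : (c t : ℝ) ≠ 0 := by exact_mod_cast hct
      have hc1 : (1 : ℝ) ≤ |(c t : ℝ)| := by
        have : (1 : ℤ) ≤ |c t| := Int.one_le_abs hct
        exact_mod_cast this
      have hvc : |v / (c t : ℝ)| ≤ v := by
        rw [abs_div, abs_of_pos hvpos]
        exact div_le_self hvpos.le hc1
      have heta := eta_pos (i0 + t)
      have hratio := h.ratio_le (i0 + t)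
      have hsucc := eta_succ (i0 + t)
      refine ⟨k, hkU, fun _ => ⟨?_, ?_⟩⟩
      · intro j
        rcases lt_trichotomy j (i0 + t) with hj | hj | hj
        · rw [if_neg (by omega)]
          have := hk1 j hj
          linarith
        · subst hj
          rw [if_pos rfl]
          have h1 : ‖k • ((s (i0 + t)).b : Circ)‖
              ≤ ‖k • ((s (i0 + t)).b : Circ) - ((v / (c t : ℝ) : ℝ) : Circ)‖
                + ‖((v / (c t : ℝ) : ℝ) : Circ)‖ := by
            have := norm_add_le (k • ((s (i0 + t)).b : Circ) - ((v / (c t : ℝ) : ℝ) : Circ))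
              ((v / (c t : ℝ) : ℝ) : Circ)
            simpa using this
          have h2 := norm_coe_le_abs (v / (c t : ℝ))
          linarith
        · rw [if_neg (by omega)]
          have h1 := hk3 j hj
          have h2 : (|v / (c t : ℝ)| + 1) * ((s (i0 + t + 1)).b / (s (i0 + t)).b)
              ≤ 2 * (eta (i0 + t) / 2) := by
            apply mul_le_mul (by linarith) _ (by positivity) (by norm_num)
            refine hratio.trans ?_
            rw [← hsucc]
            apply div_le_self (eta_pos _).le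
            linarith [(Nat.cast_nonneg (i0 + t) : (0 : ℝ) ≤ ((i0 + t : ℕ) : ℝ))]
          linarith
      · set q : ℝ := xs t / (s (i0 + t)).b with hq
        have h1 : v / (c t : ℝ) * q = v + v / (c t : ℝ) * (q - c t) := by
          field_simp
          ring
        have hb2 : |q - c t| * (s (i0 + t)).b ≤ ((m : ℝ) + 1) * (s (i0 + t + 1)).b := by
          have h8 : xs t - (c t : ℝ) * (s (i0 + t)).b = (q - c t) * (s (i0 + t)).b := by
            rw [hq]; field_simp
          have h9 : |xs t - (c t : ℝ) * (s (i0 + t)).b| ≤ ((m : ℝ) + 1) * (s (i0 + t + 1)).b := hb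
          rw [h8, abs_mul, abs_of_pos hbpos] at h9
          exact h9
        have hq_le : |q - c t| ≤ eta (i0 + t) := by
          have h10 : |q - c t| ≤ ((m : ℝ) + 1) * ((s (i0 + t + 1)).b / (s (i0 + t)).b) := by
            rw [mul_div_assoc', le_div_iff₀ hbpos]
            exact hb2
          refine h10.trans ?_
          have h11 : ((m : ℝ) + 1) * ((s (i0 + t + 1)).b / (s (i0 + t)).b)
              ≤ ((m : ℝ) + 1) * (eta (i0 + t + 1) / (((i0 + t : ℕ) : ℝ) + 2)) :=
            mul_le_mul_of_nonneg_left hratio mpos.le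
          refine h11.trans ?_
          rw [hsucc, mul_div_assoc', div_le_iff₀ (by positivity)]
          have h12 : (m : ℝ) + 1 ≤ ((i0 + t : ℕ) : ℝ) + 2 := by
            push_cast; rw [hi0cast]; linarith [(Nat.cast_nonneg t : (0 : ℝ) ≤ t)]
          nlinarith
        have h13 : ‖(((v / (c t : ℝ) * (q - c t) : ℝ)) : Circ)‖ ≤ eta (i0 + t) := by
          refine (norm_coe_le_abs _).trans ?_
          rw [abs_mul]
          calc |v / (c t : ℝ)| * |q - c t| ≤ 1 * eta (i0 + t) :=
                mul_le_mul (by linarith) hq_le (abs_nonneg _) (by norm_num)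
            _ = eta (i0 + t) := one_mul _
        have h14 : k • x - (v : Circ) = (k • x - (((v / (c t : ℝ) * q : ℝ)) : Circ))
            + (((v / (c t : ℝ) * (q - c t) : ℝ)) : Circ) := by
          rw [h1, AddCircle.coe_add]
          abel
        rw [h14]
        refine (norm_add_le _ _).trans ?_
        linarith
  choose k hkU hkprop using htest
  -- only finitely many nonzero coefficients
  have hfin : {t | c t ≠ 0}.Finite := by
    by_contra hinf
    obtain ⟨J, hJsub, hJcard⟩ := Set.Infinite.exists_subset_card_eq hinf (2 * (m + 1))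
    obtain ⟨T, hT⟩ := J.exists_nat_subset_range
    set K : ℤ := ∑ t ∈ J, k t with hK
    have hK' : K = ∑ t ∈ Finset.range T, if t ∈ J then k t else 0 := by
      rw [Finset.sum_ite_mem, Finset.inter_eq_right.2 hT]
    have hKU : K ∈ U p := by
      rw [hK']
      apply sum_mem_base h.base
      intro t _
      split_ifs with htJ
      · exact hkU t
      · exact h.base.zero_mem _
    have hsum := sum_eta_le i0 J
    have heta_small := eta_le_small i0
    have heta_v : 2 * eta i0 ≤ v := by
      have h1 := eta_le i0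
      have h2 : 1 / (128 * ((i0 : ℝ) + 1)) ≤ 1 / (8 * ((m : ℝ) + 1)) := by
        rw [div_le_div_iff₀ (by positivity) (by positivity), hi0cast]
        nlinarith [(Nat.cast_nonneg m : (0 : ℝ) ≤ m)]
      have h3 : 1 / (8 * ((m : ℝ) + 1)) = v / 2 := by
        rw [hv]; field_simp; norm_num
      linarith
    have hKb : ∀ j, ‖K • ((s j).b : Circ)‖ ≤ 1 / ((m : ℝ) + 1) := by
      intro j
      rw [hK, Finset.sum_smul]
      refine (norm_sum_le _ _).trans ?_
      have h1 : ∑ t ∈ J, ‖k t • ((s j).b : Circ)‖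
          ≤ ∑ t ∈ J, (eta (i0 + t) + if i0 + t = j then v else 0) :=
        Finset.sum_le_sum (fun t ht => (hkprop t (hJsub ht)).1 j)
      refine h1.trans ?_
      rw [Finset.sum_add_distrib]
      have h2 : ∑ t ∈ J, (if i0 + t = j then v else 0) ≤ v := by
        rw [Finset.sum_ite, Finset.sum_const_zero, add_zero, Finset.sum_const, nsmul_eq_mul]
        have h3 : (J.filter (fun t => i0 + t = j)).card ≤ 1 := by
          rw [Finset.card_le_one]
          intro a ha b hb
          have h4 := (Finset.mem_filter.1 ha).2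
          have h5 := (Finset.mem_filter.1 hb).2
          omega
        have h4 : ((J.filter (fun t => i0 + t = j)).card : ℝ) ≤ 1 := by exact_mod_cast h3
        nlinarith
      linarith
    have hKx := hx K (h.base.anti hnp hKU) hKb
    have hhalf : K • x - ((1 / 2 : ℝ) : Circ) = ∑ t ∈ J, (k t • x - (v : Circ)) := by
      rw [Finset.sum_sub_distrib, Finset.sum_const, hJcard, hK, Finset.sum_smul]
      congr 1
      rw [nsmul_coe]
      congr 1
      rw [hv]; push_cast; field_simp; norm_num
    have hbound : ‖K • x - ((1 / 2 : ℝ) : Circ)‖ ≤ 6 * eta i0 := by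
      rw [hhalf]
      refine (norm_sum_le _ _).trans ?_
      have h1 : ∑ t ∈ J, ‖k t • x - (v : Circ)‖ ≤ ∑ t ∈ J, 3 * eta (i0 + t) :=
        Finset.sum_le_sum (fun t ht => (hkprop t (hJsub ht)).2)
      rw [← Finset.mul_sum] at h1
      linarith
    have h4 : ‖((1 / 2 : ℝ) : Circ)‖ ≤ ‖K • x‖ + ‖K • x - ((1 / 2 : ℝ) : Circ)‖ := by
      have := norm_sub_le (K • x) (K • x - ((1 / 2 : ℝ) : Circ))
      simpa using this
    rw [half_norm] at h4
    linarith
  obtain ⟨T, hT⟩ := hfin.bddAbove
  have hzero : ∀ t, T + 1 ≤ t → c t = 0 := by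
    intro t ht
    by_contra hne
    have := hT (show t ∈ {t | c t ≠ 0} from hne)
    omega
  have hconst : ∀ t, T + 1 ≤ t → xs t = xs (T + 1) := by
    intro t ht
    induction t, ht using Nat.le_induction with
    | base => rfl
    | succ t ht ih =>
      rw [hxs t]
      have h1 : round (xs t / (s (i0 + t)).b) = 0 := hzero t ht
      rw [h1, ih]; simp
  have hxT : xs (T + 1) = 0 := by
    by_contra hne
    have hpos : 0 < |xs (T + 1)| := abs_pos.2 hne
    obtain ⟨M, hM⟩ := exists_nat_gt (1 / |xs (T + 1)|)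
    have h1 := (inv (T + 1 + M)).2
    rw [hconst _ (by omega)] at h1
    have hg := h.good (i0 + (T + 1 + M))
    have hN : (1 : ℝ) ≤ (s (i0 + (T + 1 + M))).N := by exact_mod_cast hg.one_le_N
    have h2 : eta (i0 + (T + 1 + M)) / (s (i0 + (T + 1 + M))).N ≤ eta (i0 + (T + 1 + M)) :=
      div_le_self (eta_pos _).le hN
    have h3 : eta (i0 + (T + 1 + M)) ≤ eta M := eta_anti (by omega)
    have h4 := eta_le M
    rw [div_lt_iff₀ hpos] at hM
    have h5 : |xs (T + 1)| ≤ 1 / (128 * ((M : ℝ) + 1)) := by linarith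
    rw [le_div_iff₀ (by positivity)] at h5
    nlinarith [(Nat.cast_nonneg M : (0 : ℝ) ≤ M)]
  have hfinal := (inv (T + 1)).1
  rw [hxT] at hfinal
  have h0 : ((0 : ℝ) : Circ) = 0 := rfl
  rw [h0, sub_zero] at hfinal
  exact (h.good _).DpH _ hfinal

/-- The existence of the sequence. -/
theorem exists_null_sequence (hU : PBase U) (hH : (dualSet U).Infinite) :
    ∃ b : ℕ → ℝ, StrictAnti b ∧ (∀ i, 0 < b i) ∧ (∀ i, b i < 1 / 4) ∧
      (∀ i, b i ≤ eta i) ∧
      (∀ i, (b i : Circ) ∈ dualSet U) ∧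
      ∀ (n m : ℕ) (x : Circ),
        (∀ k ∈ U n, (∀ j, ‖k • (b j : Circ)‖ ≤ 1 / ((m : ℝ) + 1)) → ‖k • x‖ ≤ 1 / 4) →
        x ∈ dualSet U := by
  obtain ⟨s, h1, h2, h3, h4⟩ := exists_chain hU hH
  have hch : Chain U s := ⟨hU, h1, h2, h3, h4⟩
  refine ⟨fun i => (s i).b, hch.b_anti, fun i => (h1 i).b_pos, fun i => ?_, fun i => ?_,
    fun i => (h1 i).bH, fun n m x hx => hch.mem_dual hx⟩
  · exact (hch.b_le (Nat.zero_le i)).trans_lt h4
  · have hg := h1 i
    have hN : (1 : ℝ) ≤ (s i).N := by exact_mod_cast hg.one_le_N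
    have hb := hg.b_pos
    have h5 : 1 * (s i).b ≤ ((i : ℝ) + 1) * (s i).N * (s i).b := by
      apply mul_le_mul_of_nonneg_right _ hb.le
      nlinarith [(Nat.cast_nonneg i : (0 : ℝ) ≤ i)]
    linarith [hg.small]

end Pool.Agent.Lib.MP_19adc1_gt
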