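import Pool.Agent.Lib.MP_19adc1_gt.Seq

/-!
# The main argument
-/

namespace Pool.Agent.Lib.MP_19adc1_gt

open Topology

variable {U : ℕ → Set ℤ}

/-- The chain of data, as a structure. -/
structure Chain (U : ℕ → Set ℤ) (s : ℕ → St) : Prop where
  base : PBase U
  good : ∀ i, Good U i (s i)
  next : ∀ i, (s (i + 1)).D = nextD i (s i)
  small : ∀ i, (s (i + 1)).b * ((i : ℝ) + 2) ≤ eta (i + 1) * (s i).b
  first : (s 0).b < 1 / 4

variable {s : ℕ → St}

theorem Chain.b_succ (h : Chain U s) (i : ℕ) : (s (i + 1)).b ≤ eta (i + 1) * (s i).b := by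
  have h1 := h.small i
  have h2 := (h.good (i + 1)).b_pos
  have h3 : (s (i + 1)).b * 1 ≤ (s (i + 1)).b * ((i : ℝ) + 2) := by
    apply mul_le_mul_of_nonneg_left _ h2.le
    linarith [(Nat.cast_nonneg i : (0 : ℝ) ≤ i)]
  linarith

theorem Chain.b_succ_lt (h : Chain U s) (i : ℕ) : (s (i + 1)).b < (s i).b := by
  have h1 := h.b_succ i
  have h2 := (h.good i).b_pos
  have h3 := eta_le_small (i + 1)
  nlinarith

theorem Chain.b_anti (h : Chain U s) : StrictAnti (fun i => (s i).b) :=
  strictAnti_nat_of_succ_lt h.b_succ_lt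

theorem Chain.b_le (h : Chain U s) {i j : ℕ} (hij : i ≤ j) : (s j).b ≤ (s i).b :=
  h.b_anti.antitone hij

theorem Chain.nextD_subset (h : Chain U s) (i : ℕ) : nextD i (s i) ⊆ (s (i + 1)).Dp := by
  rw [← h.next i]
  exact (h.good (i + 1)).DDp

theorem Chain.Dp_subset (h : Chain U s) (i : ℕ) : (s i).Dp ⊆ (s (i + 1)).D := by
  classical
  rw [h.next i]
  intro d hd
  unfold nextD
  exact Finset.mem_union_left _ (Finset.mem_union_left _ hd)

theorem Chain.b_mem_succ (h : Chain U s) (i : ℕ) : ((s i).b : Circ) ∈ (s (i + 1)).D := by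
  classical
  rw [h.next i]
  unfold nextD
  exact Finset.mem_union_left _ (Finset.mem_union_right _ (Finset.mem_singleton_self _))

theorem Chain.b_mem (h : Chain U s) {i j : ℕ} (hij : j < i) : ((s j).b : Circ) ∈ (s i).D := by
  induction i, hij using Nat.le_induction with
  | base => exact h.b_mem_succ j
  | succ i _ ih => exact h.Dp_subset i ((h.good i).DDp ih)

theorem Chain.add_mem (h : Chain U s) (i : ℕ) {d : Circ} (hd : d ∈ (s i).Dp) {c : ℤ}
    (hc : |c| ≤ (i : ℤ) + 1) : d + c • ((s i).b : Circ) ∈ (s (i + 1)).Dp := by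
  classical
  apply h.nextD_subset i
  unfold nextD
  apply Finset.mem_union_right
  rw [Finset.mem_image]
  refine ⟨(d, c), ?_, rfl⟩
  rw [Finset.mem_product, Finset.mem_Icc]
  exact ⟨hd, abs_le.1 hc⟩

/-- The test integers. -/
theorem Chain.test (h : Chain U s) (i : ℕ) {x d : Circ} (hd : d ∈ (s i).Dp) {x' : ℝ}
    (hx : x = d + (x' : Circ)) (hx' : |x'| ≤ eta i / (s i).N) (r : ℝ) :
    ∃ k ∈ U i, (∀ j < i, ‖k • ((s j).b : Circ)‖ ≤ eta i) ∧
      ‖k • ((s i).b : Circ) - (r : Circ)‖ ≤ eta i ∧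
      (∀ j, i < j → ‖k • ((s j).b : Circ)‖ ≤ (|r| + 1) * ((s (i + 1)).b / (s i).b)) ∧
      ‖k • x - ((r * (x' / (s i).b) : ℝ) : Circ)‖ ≤ 2 * eta i := by
  have hg := h.good i
  have hb := hg.b_pos
  have hN : (0 : ℝ) < (s i).N := by exact_mod_cast hg.one_le_N
  have heta := eta_pos i
  have hNb : (s i).N * (s i).b ≤ eta i := by
    have h1 := hg.small
    have h2 : 0 ≤ (i : ℝ) * ((s i).N * (s i).b) := by positivity
    nlinarith
  obtain ⟨k, hkU, hkr, hkd⟩ := hg.synd (r / (s i).b)
  refine ⟨k, hkU, ?_, ?_, ?_, ?_⟩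
  · intro j hj
    exact hkd _ (hg.DDp (h.b_mem hj))
  · rw [zsmul_coe, ← AddCircle.coe_sub]
    refine (norm_coe_le_abs _).trans ?_
    have : (k : ℝ) * (s i).b - r = ((k : ℝ) - r / (s i).b) * (s i).b := by
      field_simp
    rw [this, abs_mul, abs_of_pos hb]
    exact (mul_le_mul_of_nonneg_right hkr hb.le).trans hNb
  · intro j hj
    rw [zsmul_coe]
    refine (norm_coe_le_abs _).trans ?_
    have hbj := (h.good j).b_pos
    have hbj1 : (s j).b ≤ (s (i + 1)).b := h.b_le hj
    rw [abs_mul, abs_of_pos hbj]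
    have h1 : |(k : ℝ)| ≤ |r| / (s i).b + (s i).N := by
      have h2 : |(k : ℝ)| ≤ |(k : ℝ) - r / (s i).b| + |r / (s i).b| := by
        have := abs_add_le ((k : ℝ) - r / (s i).b) (r / (s i).b)
        simpa using this
      have h3 : |r / (s i).b| = |r| / (s i).b := by rw [abs_div, abs_of_pos hb]
      linarith
    have hbi1 := (h.good (i + 1)).b_pos
    have h4 : |(k : ℝ)| * (s j).b ≤ (|r| / (s i).b + (s i).N) * (s (i + 1)).b :=
      mul_le_mul h1 hbj1 hbj.le (by positivity)
    refine h4.trans ?_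
    have h5 : (|r| / (s i).b + (s i).N) * (s (i + 1)).b
        = (|r| + (s i).N * (s i).b) * ((s (i + 1)).b / (s i).b) := by
      field_simp
    rw [h5]
    apply mul_le_mul_of_nonneg_right _ (by positivity)
    have := eta_le_small i
    linarith
  · have h1 : k • x - ((r * (x' / (s i).b) : ℝ) : Circ)
        = k • d + ((((k : ℝ) - r / (s i).b) * x' : ℝ) : Circ) := by
      rw [hx, smul_add, zsmul_coe, add_sub_assoc, ← AddCircle.coe_sub]
      congr 2
      ring_nf
    rw [h1]
    refine (norm_add_le _ _).trans ?_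
    have h2 := hkd d hd
    have h3 : ‖((((k : ℝ) - r / (s i).b) * x' : ℝ) : Circ)‖ ≤ eta i := by
      refine (norm_coe_le_abs _).trans ?_
      rw [abs_mul]
      calc |(k : ℝ) - r / (s i).b| * |x'| ≤ (s i).N * (eta i / (s i).N) :=
            mul_le_mul hkr hx' (abs_nonneg _) hN.le
        _ = eta i := by field_simp
    linarith

theorem Chain.ratio_le (h : Chain U s) (i : ℕ) :
    (s (i + 1)).b / (s i).b ≤ eta (i + 1) / ((i : ℝ) + 2) := by
  have hb := (h.good i).b_pos
  rw [div_le_div_iff₀ hb (by positivity)]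
  exact h.small i

theorem half_norm : ‖((1 / 2 : ℝ) : Circ)‖ = 1 / 2 := by
  rw [norm_coe_of_abs_le (by rw [abs_of_pos]; norm_num)]
  rw [abs_of_pos]; norm_num

/-- One step: the expansion coefficient at stage `i` is bounded and the new remainder is tiny. -/
theorem Chain.step (h : Chain U s) {n m i : ℕ} (hn : n ≤ i) (hm : m ≤ i) {x d : Circ}
    (hx : ∀ k ∈ U n, (∀ j, ‖k • ((s j).b : Circ)‖ ≤ 1 / ((m : ℝ) + 1)) → ‖k • x‖ ≤ 1 / 4)
    (hd : d ∈ (s i).Dp) {x' : ℝ} (hxd : x = d + (x' : Circ)) (hx' : |x'| ≤ eta i / (s i).N) :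
    |round (x' / (s i).b)| ≤ (m : ℤ) + 1 ∧
      |x' - round (x' / (s i).b) * (s i).b| ≤ ((m : ℝ) + 1) * (s (i + 1)).b := by
  have hg := h.good i
  have hb := hg.b_pos
  have hb1 := (h.good (i + 1)).b_pos
  have heta := eta_pos i
  have heta_small := eta_le_small i
  have heta_succ := eta_succ i
  have hratio := h.ratio_le i
  have hcast : (m : ℝ) ≤ i := by exact_mod_cast hm
  have heta_m : eta i ≤ 1 / (128 * ((m : ℝ) + 1)) :=
    (eta_le i).trans (by
      rw [div_le_div_iff₀ (by positivity) (by positivity)]; linarith)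
  have heta_m1 : eta i ≤ 1 / (4 * ((m : ℝ) + 1)) := by
    refine heta_m.trans ?_
    rw [div_le_div_iff₀ (by positivity) (by positivity)]; nlinarith [(Nat.cast_nonneg m : (0:ℝ) ≤ m)]
  have hquarter : 1 / (4 * ((m : ℝ) + 1)) = 1 / ((m : ℝ) + 1) / 4 := by
    field_simp
  have hepos : (0 : ℝ) < 1 / ((m : ℝ) + 1) := by positivity
  have hratio2 : (s (i + 1)).b / (s i).b ≤ eta i / 2 := by
    refine hratio.trans ?_
    rw [← heta_succ]
    apply div_le_self (eta_pos _).le
    linarith [(Nat.cast_nonneg i : (0 : ℝ) ≤ i)]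
  -- Claim 1
  have claim1 : |x' / (s i).b| < (m : ℝ) + 1 := by
    by_contra hcon
    push Not at hcon
    set q := x' / (s i).b with hq
    have hqpos : 0 < |q| := by
      have : (0 : ℝ) < (m : ℝ) + 1 := by positivity
      linarith
    have hq0 : q ≠ 0 := abs_pos.1 hqpos
    obtain ⟨k, hkU, hk1, hk2, hk3, hk4⟩ := h.test i hd hxd hx' (1 / (2 * q))
    have habs : |1 / (2 * q)| ≤ 1 / ((m : ℝ) + 1) / 2 := by
      rw [abs_div, abs_one, abs_mul, abs_of_pos (by norm_num : (0 : ℝ) < 2)]
      rw [div_div, div_le_div_iff₀ (by positivity) (by positivity)]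
      nlinarith
    have he1 : 1 / ((m : ℝ) + 1) ≤ 1 := by
      rw [div_le_one (by positivity)]; linarith [(Nat.cast_nonneg m : (0 : ℝ) ≤ m)]
    have hkx := hx k (h.base.anti hn hkU) (by
      intro j
      rcases lt_trichotomy j i with hj | hj | hj
      · have := hk1 j hj
        linarith
      · subst hj
        have h1 : ‖k • ((s j).b : Circ)‖
            ≤ ‖k • ((s j).b : Circ) - ((1 / (2 * q) : ℝ) : Circ)‖ + ‖((1 / (2 * q) : ℝ) : Circ)‖ := by
          have := norm_add_le (k • ((s j).b : Circ) - ((1 / (2 * q) : ℝ) : Circ))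
            ((1 / (2 * q) : ℝ) : Circ)
          simpa using this
        have h2 := norm_coe_le_abs (1 / (2 * q))
        linarith
      · have h1 := hk3 j hj
        have h2 : (|1 / (2 * q)| + 1) * ((s (i + 1)).b / (s i).b) ≤ 2 * (eta i / 2) := by
          apply mul_le_mul (by linarith) hratio2 (by positivity) (by norm_num)
        linarith)
    have h3 : (1 / (2 * q)) * q = 1 / 2 := by
      field_simp
    rw [h3] at hk4
    have h4 : ‖((1 / 2 : ℝ) : Circ)‖ ≤ ‖k • x‖ + ‖k • x - ((1 / 2 : ℝ) : Circ)‖ := by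
      have := norm_sub_le (k • x) (k • x - ((1 / 2 : ℝ) : Circ))
      simpa using this
    rw [half_norm] at h4
    linarith
  set q := x' / (s i).b with hq
  set c := round q with hc
  have hcq : |q - c| ≤ 1 / 2 := abs_sub_round q
  constructor
  · have h1 : |(c : ℝ)| < (m : ℝ) + 2 := by
      have : |(c : ℝ)| ≤ |q| + |q - c| := by
        have := abs_sub q (q - c)
        simpa using this
      linarith
    have h2 : |c| < (m : ℤ) + 2 := by exact_mod_cast h1
    omega
  -- Claim 2
  · set R : ℝ := (s i).b / (((m : ℝ) + 1) * (s (i + 1)).b) with hR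
    have hRbig : 4 ≤ R := by
      rw [hR, le_div_iff₀ (by positivity)]
      have h1 : (s (i + 1)).b * ((i : ℝ) + 2) ≤ eta (i + 1) * (s i).b := h.small i
      have h2 : eta (i + 1) ≤ 1 / 1024 := eta_le_small (i + 1)
      have h3 : (s (i + 1)).b * ((m : ℝ) + 1) ≤ (s (i + 1)).b * ((i : ℝ) + 2) := by
        apply mul_le_mul_of_nonneg_left _ hb1.le; linarith
      have h4 : eta (i + 1) * (s i).b ≤ 1 / 1024 * (s i).b :=
        mul_le_mul_of_nonneg_right h2 hb.le
      nlinarith
    set L : ℕ := ⌊R⌋₊ - 1 with hL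
    have hfl : (⌊R⌋₊ : ℝ) ≤ R := Nat.floor_le (by linarith)
    have hfl2 : R < ⌊R⌋₊ + 1 := Nat.lt_floor_add_one R
    have hfl3 : 4 ≤ ⌊R⌋₊ := Nat.le_floor (by exact_mod_cast hRbig)
    have hL1 : 1 ≤ L := by omega
    have hLcast : (L : ℝ) = ⌊R⌋₊ - 1 := by
      rw [hL, Nat.cast_sub (by omega)]; simp
    have hLR : (L : ℝ) + 1 ≤ R := by rw [hLcast]; linarith
    have hLR2 : R / 2 ≤ L := by rw [hLcast]; linarith
    have hmult : ∀ l : ℕ, 1 ≤ l → l ≤ L → ‖l • (((q - c : ℝ)) : Circ)‖ ≤ 1 / 4 + 2 * eta i := by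
      intro l hl1 hl2
      obtain ⟨k, hkU, hk1, hk2, hk3, hk4⟩ := h.test i hd hxd hx' (l : ℝ)
      have hlcast : ((l : ℝ) : Circ) = 0 := by
        have := coe_int (l : ℤ)
        simpa using this
      have hkx := hx k (h.base.anti hn hkU) (by
        intro j
        rcases lt_trichotomy j i with hj | hj | hj
        · have := hk1 j hj
          linarith
        · subst hj
          rw [hlcast, sub_zero] at hk2
          linarith
        · have h1 := hk3 j hj
          refine h1.trans ?_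
          rw [abs_of_nonneg (Nat.cast_nonneg l)]
          have h2 : (l : ℝ) + 1 ≤ R := by
            have : (l : ℝ) ≤ L := by exact_mod_cast hl2
            linarith
          calc ((l : ℝ) + 1) * ((s (i + 1)).b / (s i).b) ≤ R * ((s (i + 1)).b / (s i).b) :=
                mul_le_mul_of_nonneg_right h2 (by positivity)
            _ = 1 / ((m : ℝ) + 1) := by
                rw [hR]; field_simp)
      have h5 : (((l : ℝ) * q : ℝ) : Circ) = l • (((q - c : ℝ)) : Circ) := by
        rw [nsmul_coe]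
        have h6 : (l : ℝ) * q = (l : ℝ) * (q - c) + (((l : ℤ) * c : ℤ) : ℝ) := by
          push_cast; ring
        rw [h6, AddCircle.coe_add, coe_int, add_zero]
      rw [h5] at hk4
      have h7 : ‖l • (((q - c : ℝ)) : Circ)‖ ≤ ‖k • x‖ + ‖k • x - l • (((q - c : ℝ)) : Circ)‖ := by
        have := norm_sub_le (k • x) (k • x - l • (((q - c : ℝ)) : Circ))
        simpa using this
      linarith
    have hfinal := mul_norm_le_of_multiples (y := (((q - c : ℝ)) : Circ)) (c := 1 / 4 + 2 * eta i)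
      (by linarith) L hmult hL1
    rw [norm_coe_of_abs_le hcq] at hfinal
    have h8 : x' - c * (s i).b = (q - c) * (s i).b := by
      rw [hq]; field_simp
    rw [h8, abs_mul, abs_of_pos hb]
    have h9 : R / 2 * |q - c| ≤ 1 / 3 := by
      have : R / 2 * |q - c| ≤ L * |q - c| := mul_le_mul_of_nonneg_right hLR2 (abs_nonneg _)
      linarith
    have h10 : (s i).b = R * (((m : ℝ) + 1) * (s (i + 1)).b) := by
      rw [hR]; field_simp
    rw [h10]
    have h11 : 0 < ((m : ℝ) + 1) * (s (i + 1)).b := by positivity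
    nlinarith

end Pool.Agent.Lib.MP_19adc1_gt
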