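import Pool.Agent.Lib.MP_19adc1_gt.Base

/-!
# The rapidly decreasing sequence
-/

namespace Pool.Agent.Lib.MP_19adc1_gt

open Topology

/-- The error terms. -/
noncomputable def eta (i : ℕ) : ℝ := (1 / 2) ^ (i + 10)

theorem eta_pos (i : ℕ) : 0 < eta i := by unfold eta; positivity

theorem eta_succ (i : ℕ) : eta (i + 1) = eta i / 2 := by
  unfold eta
  rw [show i + 1 + 10 = (i + 10) + 1 by ring, pow_succ]
  ring

theorem eta_anti {i j : ℕ} (h : i ≤ j) : eta j ≤ eta i := by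
  unfold eta
  exact pow_le_pow_of_le_one (by norm_num) (by norm_num) (by omega)

theorem eta_le (i : ℕ) : eta i ≤ 1 / (128 * ((i : ℝ) + 1)) := by
  induction i with
  | zero => unfold eta; norm_num
  | succ i ih =>
    rw [eta_succ]
    have h1 : eta i / 2 ≤ 1 / (128 * ((i : ℝ) + 1)) / 2 := by linarith
    refine h1.trans ?_
    rw [div_div, div_le_div_iff₀ (by positivity) (by positivity)]
    push_cast
    nlinarith [(Nat.cast_nonneg i : (0 : ℝ) ≤ i)]

theorem eta_le_small (i : ℕ) : eta i ≤ 1 / 1024 := by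
  have := eta_anti (Nat.zero_le i)
  refine this.trans ?_
  unfold eta; norm_num

variable {U : ℕ → Set ℤ}

/-- The data chosen at one stage. -/
structure St where
  D : Finset Circ
  Dp : Finset Circ
  N : ℕ
  b : ℝ

/-- The properties of the data at stage `i`. -/
structure Good (U : ℕ → Set ℤ) (i : ℕ) (s : St) : Prop where
  DpH : ∀ d ∈ s.Dp, d ∈ dualSet U
  DDp : s.D ⊆ s.Dp
  b_pos : 0 < s.b
  bH : (s.b : Circ) ∈ dualSet U
  one_le_N : 1 ≤ s.N
  small : ((i : ℝ) + 1) * s.N * s.b ≤ eta i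
  synd : ∀ r : ℝ, ∃ k ∈ U i, |(k : ℝ) - r| ≤ s.N ∧ ∀ d ∈ s.Dp, ‖k • d‖ ≤ eta i
  base : ∀ x : Circ, (∀ k ∈ U i, (∀ d ∈ s.D, ‖k • d‖ ≤ 1 / ((i : ℝ) + 1)) →
    |(k : ℝ)| * s.b ≤ 1 / ((i : ℝ) + 1) → ‖k • x‖ ≤ 1 / 4) → ∃ h ∈ s.Dp, ‖x - h‖ ≤ eta i / s.N

theorem exists_good (hU : PBase U) (hH : (dualSet U).Infinite) (i : ℕ) (D : Finset Circ)
    (hD : ∀ d ∈ D, d ∈ dualSet U) {β : ℝ} (hβ : 0 < β) :
    ∃ s : St, s.D = D ∧ s.b < β ∧ Good U i s := by
  classical
  set A : Set ℤ := {k | k ∈ U i ∧ ∀ d ∈ D, ‖k • d‖ ≤ 1 / ((i : ℝ) + 1)} with hA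
  obtain ⟨n, hn⟩ := exists_base_subset hU D hD (ε := 1 / ((i : ℝ) + 1)) (by positivity)
  have hnA : U (max i n) ⊆ A := fun k hk =>
    ⟨hU.anti (le_max_left i n) hk, hn k (hU.anti (le_max_right i n) hk)⟩
  have hfin := polar_finite hU hnA
  set Dp : Finset Circ := D ∪ hfin.toFinset with hDp
  have hDpH : ∀ d ∈ Dp, d ∈ dualSet U := by
    intro d hd
    rcases Finset.mem_union.1 hd with h | h
    · exact hD d h
    · exact polar_subset_dualSet hU hnA (hfin.mem_toFinset.1 h)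
  set W : Set ℤ := {k | k ∈ U i ∧ ∀ d ∈ Dp, ‖k • d‖ ≤ eta i} with hW
  obtain ⟨n', hn'⟩ := exists_base_subset hU Dp hDpH (eta_pos i)
  have hnW : U (max i n') ⊆ W := fun k hk =>
    ⟨hU.anti (le_max_left i n') hk, hn' k (hU.anti (le_max_right i n') hk)⟩
  obtain ⟨N, hN1, hN⟩ := exists_syndetic hU hnW
  have hNpos : (0 : ℝ) < N := by exact_mod_cast hN1
  have heta := eta_pos i
  obtain ⟨M, hM⟩ := exists_bound hU hnA (δ := eta i / N) (by positivity)
  obtain ⟨b, hb0, hb1, hbH⟩ := exists_small hU hH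
    (β := min β (min (eta i / (((i : ℝ) + 1) * N)) (1 / (((i : ℝ) + 1) * (M + 1)))))
    (by positivity)
  have hbβ : b < β := hb1.trans_le (min_le_left _ _)
  have hbN : b < eta i / (((i : ℝ) + 1) * N) :=
    hb1.trans_le ((min_le_right _ _).trans (min_le_left _ _))
  have hbM : b < 1 / (((i : ℝ) + 1) * (M + 1)) :=
    hb1.trans_le ((min_le_right _ _).trans (min_le_right _ _))
  refine ⟨⟨D, Dp, N, b⟩, rfl, hbβ, ?_⟩
  refine ⟨hDpH, Finset.subset_union_left, hb0, hbH, hN1, ?_, ?_, ?_⟩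
  · rw [lt_div_iff₀ (by positivity)] at hbN
    simp only
    linarith
  · intro r
    obtain ⟨k, hk, hkr⟩ := hN r
    exact ⟨k, hk.1, hkr, hk.2⟩
  · intro x hx
    simp only at hx ⊢
    obtain ⟨h, hh, hxh⟩ := hM x (by
      intro k hk hkM
      apply hx k hk.1 hk.2
      have h1 : |(k : ℝ)| ≤ M := by exact_mod_cast hkM
      rw [lt_div_iff₀ (by positivity)] at hbM
      rw [le_div_iff₀ (by positivity)]
      have h2 : |(k : ℝ)| * b ≤ M * b := mul_le_mul_of_nonneg_right h1 hb0.le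
      have h3 : |(k : ℝ)| * b * ((i : ℝ) + 1) ≤ M * b * ((i : ℝ) + 1) :=
        mul_le_mul_of_nonneg_right h2 (by positivity)
      nlinarith [mul_pos hb0 (by positivity : (0 : ℝ) < (i : ℝ) + 1)])
    exact ⟨h, Finset.mem_union_right _ (hfin.mem_toFinset.2 hh), hxh⟩

open Classical in
/-- The next set of test elements. -/
noncomputable def nextD (i : ℕ) (s : St) : Finset Circ :=
  (s.Dp ∪ {(s.b : Circ)}) ∪
    (s.Dp ×ˢ Finset.Icc (-((i : ℤ) + 1)) ((i : ℤ) + 1)).image (fun p => p.1 + p.2 • (s.b : Circ))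

theorem exists_chain (hU : PBase U) (hH : (dualSet U).Infinite) :
    ∃ s : ℕ → St, (∀ i, Good U i (s i)) ∧
      (∀ i, (s (i + 1)).D = nextD i (s i)) ∧
      (∀ i, (s (i + 1)).b * ((i : ℝ) + 2) ≤ eta (i + 1) * (s i).b) ∧ (s 0).b < 1 / 4 := by
  classical
  obtain ⟨s0, -, hs0, hs0g⟩ := exists_good hU hH 0 ∅ (by simp) (β := 1 / 4) (by norm_num)
  have step : ∀ (i : ℕ) (s : St), ∃ s' : St, Good U i s →
      (s'.D = nextD i s ∧ s'.b * ((i : ℝ) + 2) ≤ eta (i + 1) * s.b ∧ Good U (i + 1) s') := by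
    intro i s
    by_cases hs : Good U i s
    · have hnext : ∀ d ∈ nextD i s, d ∈ dualSet U := by
        intro d hd
        unfold nextD at hd
        rcases Finset.mem_union.1 hd with h | h
        · rcases Finset.mem_union.1 h with h | h
          · exact hs.DpH d h
          · rw [Finset.mem_singleton.1 h]; exact hs.bH
        · obtain ⟨p, hp, rfl⟩ := Finset.mem_image.1 h
          exact dualSet_add_mem hU (hs.DpH _ (Finset.mem_product.1 hp).1)
            (dualSet_zsmul_mem hs.bH _)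
      have hb := hs.b_pos
      have he := eta_pos (i + 1)
      obtain ⟨s', h1, h2, h3⟩ := exists_good hU hH (i + 1) (nextD i s) hnext
        (β := eta (i + 1) * s.b / ((i : ℝ) + 2)) (by positivity)
      refine ⟨s', fun _ => ⟨h1, ?_, h3⟩⟩
      rw [lt_div_iff₀ (by positivity)] at h2
      exact h2.le
    · exact ⟨s, fun h => absurd h hs⟩
  choose f hf using step
  let s : ℕ → St := fun n => Nat.rec s0 (fun i t => f i t) n
  have hs_succ : ∀ i, s (i + 1) = f i (s i) := fun i => rfl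
  have hgood : ∀ i, Good U i (s i) := by
    intro i
    induction i with
    | zero => exact hs0g
    | succ i ih =>
      rw [hs_succ]
      exact (hf i (s i) ih).2.2
  refine ⟨s, hgood, fun i => ?_, fun i => ?_, hs0⟩
  · rw [hs_succ]; exact (hf i (s i) (hgood i)).1
  · rw [hs_succ]; exact (hf i (s i) (hgood i)).2.1

end Pool.Agent.Lib.MP_19adc1_gt
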