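import Pool.Agent.Lib.MP_19adc1_gt.Final

/-!
# From the sequence to the topology
-/

namespace Pool.Agent.Lib.MP_19adc1_gt

open Topology

theorem continuous_hom_iff {G : Type*} [AddCommGroup G] [TopologicalSpace G]
    [IsTopologicalAddGroup G] (χ : G →+ Circ) :
    Continuous χ ↔ ∀ ε : ℝ, 0 < ε → {k | ‖χ k‖ ≤ ε} ∈ 𝓝 (0 : G) := by
  constructor
  · intro h ε hε
    have h1 : Filter.Tendsto χ (𝓝 0) (𝓝 (χ 0)) := h.tendsto 0
    rw [map_zero] at h1
    have h2 : {y : Circ | ‖y‖ ≤ ε} ∈ 𝓝 (0 : Circ) := by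
      filter_upwards [Metric.ball_mem_nhds (0 : Circ) hε] with y hy
      rw [mem_ball_zero_iff] at hy
      exact hy.le
    exact h1 h2
  · intro h
    apply continuous_of_continuousAt_zero χ
    unfold ContinuousAt
    rw [map_zero, Metric.tendsto_nhds]
    intro ε hε
    filter_upwards [h (ε / 2) (by positivity)] with k hk
    rw [dist_zero_right]
    have : ‖χ k‖ ≤ ε / 2 := hk
    linarith

/-- A character is determined by its value at `1`. -/
theorem hom_apply (χ : ℤ →+ Circ) (k : ℤ) : χ k = k • χ 1 := by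
  rw [← map_zsmul, smul_eq_mul, mul_one]

theorem mem_characters_iff {τ : TopologicalSpace ℤ} (hτ : IsGroupTopology τ) (χ : ℤ →+ Circ) :
    χ ∈ characters τ ↔ ∀ ε : ℝ, 0 < ε → {k : ℤ | ‖k • χ 1‖ ≤ ε} ∈ @nhds ℤ τ 0 := by
  have h := @continuous_hom_iff ℤ _ τ hτ χ
  have h2 : ∀ ε : ℝ, {k : ℤ | ‖k • χ 1‖ ≤ ε} = {k : ℤ | ‖χ k‖ ≤ ε} := by
    intro ε
    ext k
    show ‖k • χ 1‖ ≤ ε ↔ ‖χ k‖ ≤ ε
    rw [← hom_apply χ k]
  simp only [h2]
  exact h

/-- A neighbourhood base of `0` for a first countable precompact group topology. -/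
theorem exists_pbase {τ : TopologicalSpace ℤ} (hτ : IsGroupTopology τ)
    (hfc : @FirstCountableTopology ℤ τ) (hp : IsPrecompact τ) :
    ∃ U : ℕ → Set ℤ, PBase U ∧ ∀ A : Set ℤ, A ∈ @nhds ℤ τ 0 ↔ ∃ n, U n ⊆ A := by
  obtain ⟨U, hU, hadd⟩ :=
    @IsTopologicalAddGroup.exists_antitone_basis_nhds_zero ℤ τ _ hτ hfc
  have hmem : ∀ A : Set ℤ, A ∈ @nhds ℤ τ 0 ↔ ∃ n, U n ⊆ A := by
    intro A
    rw [hU.toHasBasis.mem_iff]
    simp
  have hn : ∀ n, U n ∈ @nhds ℤ τ 0 := fun n => (hmem _).2 ⟨n, subset_rfl⟩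
  refine ⟨U, ⟨fun n => @mem_of_mem_nhds ℤ τ 0 _ (hn n), ?_, hU.antitone, ?_⟩, hmem⟩
  · intro n k hk l hl
    exact hadd n (Set.add_mem_add hk hl)
  · intro n
    exact hp _ (hn n)

theorem characters_eq_dualSet {τ : TopologicalSpace ℤ} (hτ : IsGroupTopology τ)
    {U : ℕ → Set ℤ} (hmem : ∀ A : Set ℤ, A ∈ @nhds ℤ τ 0 ↔ ∃ n, U n ⊆ A) (χ : ℤ →+ Circ) :
    χ ∈ characters τ ↔ χ 1 ∈ dualSet U := by
  rw [mem_characters_iff hτ]
  unfold dualSet
  simp only [Set.mem_setOf_eq]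
  constructor
  · intro h ε hε
    exact (hmem _).1 (h ε hε)
  · intro h ε hε
    exact (hmem _).2 (h ε hε)

/-- The basic neighbourhoods of the new topology. -/
def nbhd (F : Finset Circ) (b : ℕ → ℝ) (m : ℕ) : Set ℤ :=
  {k | (∀ f ∈ F, ‖k • f‖ ≤ 1 / (4 * ((m : ℝ) + 1))) ∧
    ∀ j, ‖k • (b j : Circ)‖ ≤ 1 / (4 * ((m : ℝ) + 1))}

theorem nbhd_mono {F F' : Finset Circ} {b : ℕ → ℝ} {m m' : ℕ} (hF : F ⊆ F') (hm : m ≤ m') :
    nbhd F' b m' ⊆ nbhd F b m := by
  have h : 1 / (4 * ((m' : ℝ) + 1)) ≤ 1 / (4 * ((m : ℝ) + 1)) := by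
    have : (m : ℝ) ≤ m' := by exact_mod_cast hm
    apply one_div_le_one_div_of_le (by positivity)
    linarith
  intro k hk
  exact ⟨fun f hf => (hk.1 f (hF hf)).trans h, fun j => (hk.2 j).trans h⟩

theorem nbhd_add {F : Finset Circ} {b : ℕ → ℝ} {m : ℕ} {k l : ℤ}
    (hk : k ∈ nbhd F b (2 * m + 1)) (hl : l ∈ nbhd F b (2 * m + 1)) : k + l ∈ nbhd F b m := by
  have h : 1 / (4 * (((2 * m + 1 : ℕ) : ℝ) + 1)) + 1 / (4 * (((2 * m + 1 : ℕ) : ℝ) + 1))
      = 1 / (4 * ((m : ℝ) + 1)) := by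
    push_cast; field_simp; ring
  refine ⟨fun f hf => ?_, fun j => ?_⟩
  · rw [add_smul, ← h]
    exact (norm_add_le _ _).trans (add_le_add (hk.1 f hf) (hl.1 f hf))
  · rw [add_smul, ← h]
    exact (norm_add_le _ _).trans (add_le_add (hk.2 j) (hl.2 j))

/-- The filter basis of the new topology. -/
def newBasis (H : Set Circ) (b : ℕ → ℝ) : AddGroupFilterBasis ℤ where
  sets := {V | ∃ (F : Finset Circ) (m : ℕ), (∀ f ∈ F, f ∈ H) ∧ V = nbhd F b m}
  nonempty := ⟨_, ∅, 0, by simp, rfl⟩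
  inter_sets := by
    classical
    rintro _ _ ⟨F, m, hF, rfl⟩ ⟨F', m', hF', rfl⟩
    refine ⟨_, ⟨F ∪ F', max m m', ?_, rfl⟩, ?_⟩
    · intro f hf
      rcases Finset.mem_union.1 hf with h | h
      · exact hF f h
      · exact hF' f h
    · exact Set.subset_inter (nbhd_mono Finset.subset_union_left (le_max_left _ _))
        (nbhd_mono Finset.subset_union_right (le_max_right _ _))
  zero' := by
    rintro _ ⟨F, m, hF, rfl⟩
    exact ⟨fun f _ => by rw [zero_smul, norm_zero]; positivity,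
      fun j => by rw [zero_smul, norm_zero]; positivity⟩
  add' := by
    rintro _ ⟨F, m, hF, rfl⟩
    refine ⟨_, ⟨F, 2 * m + 1, hF, rfl⟩, ?_⟩
    rintro _ ⟨k, hk, l, hl, rfl⟩
    exact nbhd_add hk hl
  neg' := by
    rintro _ ⟨F, m, hF, rfl⟩
    refine ⟨_, ⟨F, m, hF, rfl⟩, ?_⟩
    intro k hk
    refine ⟨fun f hf => ?_, fun j => ?_⟩
    · show ‖(-k) • f‖ ≤ _
      rw [neg_smul, norm_neg]; exact hk.1 f hf
    · show ‖(-k) • (b j : Circ)‖ ≤ _
      rw [neg_smul, norm_neg]; exact hk.2 j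
  conj' := by
    rintro k _ ⟨F, m, hF, rfl⟩
    refine ⟨_, ⟨F, m, hF, rfl⟩, ?_⟩
    intro l hl
    simpa using hl

/-- The new topology. -/
def newTop (H : Set Circ) (b : ℕ → ℝ) : TopologicalSpace ℤ := (newBasis H b).topology

theorem newTop_isGroupTopology (H : Set Circ) (b : ℕ → ℝ) : IsGroupTopology (newTop H b) :=
  (newBasis H b).isTopologicalAddGroup

theorem mem_nhds_newTop (H : Set Circ) (b : ℕ → ℝ) (A : Set ℤ) :
    A ∈ @nhds ℤ (newTop H b) 0 ↔ ∃ (F : Finset Circ) (m : ℕ), (∀ f ∈ F, f ∈ H) ∧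
      nbhd F b m ⊆ A := by
  have h := (newBasis H b).nhds_zero_hasBasis
  have h2 := h.mem_iff (t := A)
  unfold newTop
  rw [h2]
  constructor
  · rintro ⟨V, ⟨F, m, hF, rfl⟩, hV⟩
    exact ⟨F, m, hF, hV⟩
  · rintro ⟨F, m, hF, hV⟩
    exact ⟨_, ⟨F, m, hF, rfl⟩, hV⟩

theorem mem_characters_newTop_of_mem {H : Set Circ} {b : ℕ → ℝ} {χ : ℤ →+ Circ}
    (hχ : χ 1 ∈ H) : χ ∈ characters (newTop H b) := by
  rw [mem_characters_iff (newTop_isGroupTopology H b)]
  intro ε hε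
  rw [mem_nhds_newTop]
  obtain ⟨m, hm⟩ := exists_nat_gt (1 / ε)
  refine ⟨{χ 1}, m, by simpa using hχ, ?_⟩
  intro k hk
  have h1 := hk.1 (χ 1) (Finset.mem_singleton_self _)
  show ‖k • χ 1‖ ≤ ε
  refine h1.trans ?_
  rw [div_lt_iff₀ hε] at hm
  rw [div_le_iff₀ (by positivity)]
  nlinarith [(Nat.cast_nonneg m : (0 : ℝ) ≤ m)]

theorem newTop_lqc {H : Set Circ} {b : ℕ → ℝ} (hH : ∀ x ∈ H, ∀ l : ℕ, l • x ∈ H)
    (hb : ∀ j, (b j : Circ) ∈ H) : IsLocallyQuasiConvex (newTop H b) := by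
  intro A hA
  obtain ⟨F, m, hF, hFA⟩ := (mem_nhds_newTop H b A).1 hA
  refine ⟨nbhd F b m, (mem_nhds_newTop H b _).2 ⟨F, m, hF, subset_rfl⟩, hFA, ?_⟩
  intro x hx
  -- the key: an element `y` of `H` with `‖k • y‖` small on the neighbourhood and large at `x`
  have hkey : ∃ y ∈ H, (∀ k ∈ nbhd F b m, ‖k • y‖ ≤ 1 / (4 * ((m : ℝ) + 1))) ∧
      1 / (4 * ((m : ℝ) + 1)) < ‖x • y‖ := by
    unfold nbhd at hx
    simp only [Set.mem_setOf_eq, not_and_or, not_forall, not_le] at hx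
    rcases hx with ⟨f, hf, hxf⟩ | ⟨j, hxj⟩
    · exact ⟨f, hF f hf, fun k hk => hk.1 f hf, hxf⟩
    · exact ⟨_, hb j, fun k hk => hk.2 j, hxj⟩
  obtain ⟨y, hyH, hyV, hyx⟩ := hkey
  have hmul : ∃ l : ℕ, 1 ≤ l ∧ l ≤ m + 1 ∧ 1 / 4 < ‖l • (x • y)‖ := by
    by_contra hcon
    push Not at hcon
    have h1 := mul_norm_le_of_multiples (y := x • y) (c := 1 / 4) (by norm_num) (m + 1)
      (fun l hl1 hl2 => hcon l hl1 hl2) (by omega)
    rw [div_lt_iff₀ (by positivity)] at hyx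
    push_cast at h1
    linarith
  obtain ⟨l, hl1, hl2, hl3⟩ := hmul
  refine ⟨zmultiplesHom Circ (l • y), mem_characters_newTop_of_mem ?_, ?_, ?_⟩
  · rw [zmultiplesHom_apply, one_smul]
    exact hH y hyH l
  · intro a ha
    rw [zmultiplesHom_apply, mem_TPlus_iff]
    have h1 := hyV a ha
    have h2 : a • l • y = (l : ℤ) • (a • y) := by
      rw [natCast_zsmul, smul_comm]
    rw [h2]
    refine (norm_zsmul_le' _ _).trans ?_
    have h3 : |((l : ℤ) : ℝ)| ≤ (m : ℝ) + 1 := by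
      rw [abs_of_nonneg (by positivity)]
      exact_mod_cast hl2
    calc |((l : ℤ) : ℝ)| * ‖a • y‖ ≤ ((m : ℝ) + 1) * (1 / (4 * ((m : ℝ) + 1))) :=
          mul_le_mul h3 h1 (norm_nonneg _) (by positivity)
      _ = 1 / 4 := by field_simp
  · rw [zmultiplesHom_apply, mem_TPlus_iff, not_le]
    have h2 : x • l • y = l • (x • y) := by
      rw [smul_comm]
    rw [h2]
    exact hl3

/-- The main theorem in terms of a precompact first countable group topology with infinite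
dual. -/
theorem exists_finer {τ : TopologicalSpace ℤ} (hτ : IsGroupTopology τ)
    (hfc : @FirstCountableTopology ℤ τ) (hp : IsPrecompact τ)
    (hinf : (characters τ).Infinite) :
    ∃ σ : TopologicalSpace ℤ, IsGroupTopology σ ∧ IsLocallyQuasiConvex σ ∧ Compatible τ σ ∧
      ¬ τ ≤ σ := by
  obtain ⟨U, hU, hmem⟩ := exists_pbase hτ hfc hp
  have hchar := characters_eq_dualSet hτ hmem
  have hH : (dualSet U).Infinite := by
    intro hfin
    apply hinf
    apply Set.Finite.of_finite_image (f := fun χ : ℤ →+ Circ => χ 1)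
    · apply hfin.subset
      rintro _ ⟨χ, hχ, rfl⟩
      exact (hchar χ).1 hχ
    · intro χ _ ψ _ h
      ext
      simpa using h
  obtain ⟨b, hanti, hb0, hb4, hbeta, hbH, hdual⟩ := exists_null_sequence hU hH
  refine ⟨newTop (dualSet U) b, newTop_isGroupTopology _ _, ?_, ?_, ?_⟩
  · apply newTop_lqc _ hbH
    intro x hx l
    have := dualSet_zsmul_mem hx (l : ℤ)
    rwa [natCast_zsmul] at this
  · -- compatibility
    ext χ
    rw [hchar χ]
    constructor
    · exact mem_characters_newTop_of_mem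
    · intro hχ
      rw [mem_characters_iff (newTop_isGroupTopology _ _)] at hχ
      have h1 := hχ (1 / 4) (by norm_num)
      rw [mem_nhds_newTop] at h1
      obtain ⟨F, m, hF, hFm⟩ := h1
      obtain ⟨n, hn⟩ := exists_base_subset hU F hF (ε := 1 / (4 * ((m : ℝ) + 1))) (by positivity)
      apply hdual n (4 * m + 3) (χ 1)
      intro k hk hkb
      apply hFm
      refine ⟨hn k hk, fun j => ?_⟩
      have := hkb j
      have h2 : 1 / (((4 * m + 3 : ℕ) : ℝ) + 1) = 1 / (4 * ((m : ℝ) + 1)) := by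
        push_cast; ring
      rwa [h2] at this
  · -- not coarser
    intro hle
    have h1 : nbhd ∅ b 3 ∈ @nhds ℤ (newTop (dualSet U) b) 0 :=
      (mem_nhds_newTop _ _ _).2 ⟨∅, 3, by simp, subset_rfl⟩
    have h2 : nbhd ∅ b 3 ∈ @nhds ℤ τ 0 := nhds_mono hle h1
    obtain ⟨F, hF⟩ := hp _ h2
    set R : ℝ := ∑ f ∈ F, |(f : ℝ)| with hR
    have hR0 : 0 ≤ R := Finset.sum_nonneg (fun _ _ => abs_nonneg _)
    obtain ⟨i, hi⟩ := exists_nat_gt R
    have hne : (b i : Circ) ≠ 0 := by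
      intro h0
      have h3 := norm_coe_of_abs_le (r := b i) (by
        rw [abs_of_pos (hb0 i)]; linarith [hb4 i])
      rw [h0, norm_zero, abs_of_pos (hb0 i)] at h3
      linarith [hb0 i]
    obtain ⟨k, hk⟩ := exists_int_norm_gt hne
    obtain ⟨f, hf, u, hu, rfl⟩ := hF k
    have h4 : |(f : ℝ)| ≤ R := Finset.single_le_sum (f := fun f : ℤ => |(f : ℝ)|)
      (fun _ _ => abs_nonneg _) hf
    have h5 : ‖f • (b i : Circ)‖ ≤ |(f : ℝ)| * b i := by
      rw [zsmul_coe]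
      refine (norm_coe_le_abs _).trans ?_
      rw [abs_mul, abs_of_pos (hb0 i)]
    have h6 : b i ≤ 1 / (128 * ((i : ℝ) + 1)) := (hbeta i).trans (eta_le i)
    have h7 : |(f : ℝ)| * b i ≤ 1 / 16 := by
      have h8 : |(f : ℝ)| * b i ≤ ((i : ℝ) + 1) * (1 / (128 * ((i : ℝ) + 1))) :=
        mul_le_mul (by linarith) h6 (hb0 i).le (by positivity)
      have h9 : ((i : ℝ) + 1) * (1 / (128 * ((i : ℝ) + 1))) = 1 / 128 := by
        field_simp
      linarith
    have h10 := hu.2 i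
    rw [add_smul] at hk
    have h11 := norm_add_le (f • (b i : Circ)) (u • (b i : Circ))
    norm_num at h10
    linarith

/-- The subgroup of continuous homomorphisms into the circle. -/
def contHoms (G : Type*) [AddCommGroup G] [TopologicalSpace G] : AddSubgroup (G →+ Circ) where
  carrier := {χ | Continuous χ}
  add_mem' := by
    intro a b ha hb
    exact Continuous.add ha hb
  zero_mem' := continuous_const
  neg_mem' := by
    intro a ha
    exact Continuous.neg ha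

theorem compl_singleton_mem_nhds {G : Type*} [AddCommGroup G] [TopologicalSpace G] [T2Space G]
    {q : G} (hq : q ≠ 0) : ({q}ᶜ : Set G) ∈ 𝓝 (0 : G) :=
  isOpen_compl_singleton.mem_nhds (by simpa using hq.symm)

/-- A locally quasi-convex Hausdorff group topology on the integers has infinitely many
characters. -/
theorem characters_infinite_of_lqc {τ : TopologicalSpace ℤ} (hτ : IsGroupTopology τ)
    (ht2 : @T2Space ℤ τ) (hlqc : IsLocallyQuasiConvex τ) : (characters τ).Infinite := by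
  intro hfin
  set S : AddSubgroup (ℤ →+ Circ) := @contHoms ℤ _ τ with hS
  have hSfin : Finite S := hfin
  set q : ℕ := Nat.card S with hq
  have hqpos : 0 < q := Nat.card_pos
  have hq0 : (q : ℤ) ≠ 0 := by exact_mod_cast hqpos.ne'
  have hzero : ∀ χ ∈ characters τ, χ (q : ℤ) = 0 := by
    intro χ hχ
    have h1 : q • (⟨χ, hχ⟩ : S) = 0 := card_nsmul_eq_zero'
    have h2 : q • χ = 0 := by
      have := congrArg (fun y : S => (y : ℤ →+ Circ)) h1
      simpa using this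
    have h3 : (q • χ) 1 = 0 := by rw [h2]; rfl
    rw [hom_apply χ (q : ℤ), natCast_zsmul]
    exact h3
  have hsep : ({(q : ℤ)}ᶜ : Set ℤ) ∈ @nhds ℤ τ 0 :=
    @compl_singleton_mem_nhds ℤ _ τ ht2 (q : ℤ) hq0
  obtain ⟨A, -, hAsub, hAqc⟩ := hlqc _ hsep
  have hqA : (q : ℤ) ∉ A := fun h => hAsub h rfl
  obtain ⟨χ, hχ, -, hχq⟩ := hAqc _ hqA
  apply hχq
  rw [hzero χ hχ, mem_TPlus_iff, norm_zero]
  norm_num

theorem firstCountable_of_metrizable {X : Type*} {t : TopologicalSpace X}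
    (h : @TopologicalSpace.MetrizableSpace X t) : @FirstCountableTopology X t :=
  inferInstance

theorem no_metrizable_precompact_mackey :
    ¬ ∃ τ : TopologicalSpace ℤ, IsGroupTopology τ ∧ @TopologicalSpace.MetrizableSpace ℤ τ ∧
      IsPrecompact τ ∧ IsMackey τ := by
  rintro ⟨τ, hτ, hmet, hp, -, hlqc, hmack⟩
  have ht2 : @T2Space ℤ τ := @TopologicalSpace.t2Space_of_metrizableSpace ℤ τ hmet
  have hfc : @FirstCountableTopology ℤ τ := firstCountable_of_metrizable hmet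
  obtain ⟨σ, h1, h2, h3, h4⟩ := exists_finer hτ hfc hp (characters_infinite_of_lqc hτ ht2 hlqc)
  exact h4 (hmack σ h1 h2 h3)

end Pool.Agent.Lib.MP_19adc1_gt
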